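import Mathlib
import Pool.Agent.H524R3.Defs
import Pool.Agent.H524R3.ExpDefs
import Pool.Agent.H524R3.Asym
import Pool.Agent.H524R3.NoExp2

set_option autoImplicit false

open H524R3

namespace Pool.Agent.Results.MP_1d444f_gt.HantzscheWendt

/-- The asymptotic expansion conjecture fails for G = SU(2) and the Hantzsche-Wendt manifold M, the closed
oriented 3-manifold obtained by surgery on the plumbing link of the tree hwTree: with r = k + 2 and for
every choice of phases ω k of absolute value 1 (in particular in every 2-framing of M) the sequence of the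
level k invariants ω k * Z_k(M) has no asymptotic expansion
∑_j exp (2 π i r c_j) r^(d_j) b_j (1 + ∑_l a_{j,l} r^(-l/2)), with any finite family of real
phases c_j and real exponents d_j. (In fact |Z_k(M)| is asymptotic to (sqrt 2 / π) r^(1/2) log r.) -/
theorem result (ω : ℕ → ℂ) (hω : ∀ k, ‖ω k‖ = 1) :
    ¬ HasExpansion 2 (fun k => ω k * hwTree.wrt (k + 2)) := by
  have h := not_hasExpansion 2 (1 / 2) (fun n => ω (n - 2) * hwTree.wrt n) (Real.sqrt 2) ?_ ?_
  · simpa using h
  · filter_upwards [Filter.eventually_ge_atTop 2] with n hn
    rw [norm_mul, hω, one_mul]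
    exact norm_wrt_le n hn
  · refine norm_wrt_tendsto.congr fun n => ?_
    rw [norm_mul, hω, one_mul]

end Pool.Agent.Results.MP_1d444f_gt.HantzscheWendt
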